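import Pool.Agent.helper73.SHL.Spec

/-!
# Row shl:WED
-/

set_option autoImplicit false

namespace Pool.Agent.SHL

open Matrix Module Pool.Agent.PR

theorem WED_central {R D : Type} [Ring R] [Algebra ℚ R] [DivisionRing D] [Algebra ℚ D] {k : ℕ}
    [NeZero k] (hR : Algebra.IsCentral ℚ R) (e : R ≃ₐ[ℚ] Matrix (Fin k) (Fin k) D) :
    Algebra.IsCentral ℚ D := by
  refine ⟨fun z hz => ?_⟩
  rw [Subalgebra.mem_center_iff] at hz
  have h1 : ∀ M : Matrix (Fin k) (Fin k) D,
      M * Matrix.scalar (Fin k) z = Matrix.scalar (Fin k) z * M := by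
    intro M
    ext i j
    rw [Matrix.scalar_apply, Matrix.mul_diagonal, Matrix.diagonal_mul]
    exact hz _
  have h2 : e.symm (Matrix.scalar (Fin k) z) ∈ Subalgebra.center ℚ R := by
    rw [Subalgebra.mem_center_iff]
    intro r
    apply e.injective
    rw [map_mul, map_mul, AlgEquiv.apply_symm_apply]
    exact h1 _
  have h3 := hR.out h2
  rw [Algebra.mem_bot] at h3
  obtain ⟨q, hq⟩ := h3
  have h4 : Matrix.scalar (Fin k) z = algebraMap ℚ (Matrix (Fin k) (Fin k) D) q := by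
    rw [← e.commutes, hq, AlgEquiv.apply_symm_apply]
  have h5 := congrFun (congrFun h4 0) 0
  rw [Matrix.scalar_apply, Matrix.diagonal_apply_eq, Matrix.algebraMap_matrix_apply,
    if_pos rfl] at h5
  rw [h5]
  exact Subalgebra.algebraMap_mem _ q

theorem WED : WED_stmt := by
  intro R _ _ _ _ n hR hn
  have _ : IsArtinianRing R := IsArtinianRing.of_finite ℚ R
  obtain ⟨k, hk, D, hD, hA, hF, ⟨e⟩⟩ :=
    IsSimpleRing.exists_algEquiv_matrix_divisionRing_finite ℚ R
  have h1 : finrank ℚ R = k * k * finrank ℚ D := by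
    rw [e.toLinearEquiv.finrank_eq, Module.finrank_matrix, Fintype.card_fin]
  have hk0 : k ≠ 0 := NeZero.ne k
  rw [hn] at h1
  have h2 : k ∣ n := by
    rw [← Nat.pow_dvd_pow_iff two_ne_zero]
    refine ⟨finrank ℚ D, ?_⟩
    rw [pow_two, pow_two, h1]
  obtain ⟨d, rfl⟩ := h2
  refine ⟨k, d, D, hD, hA, hF, WED_central hR e, ?_, mul_comm k d, ⟨e⟩⟩
  have h3 : (k * k) * finrank ℚ D = (k * k) * (d * d) := by
    rw [← h1]; ring
  exact Nat.eq_of_mul_eq_mul_left (Nat.pos_of_ne_zero (mul_ne_zero hk0 hk0)) h3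

end Pool.Agent.SHL
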